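import Pool.Agent.Helper54_LQZ.All
import Pool.Agent.Helper10_LQY.BAL
import Pool.Agent.Helper85_LQY.LTT
import Pool.Agent.Helper64_LQY.HAR
import Pool.Agent.Helper47_LQY.TSM
import Pool.Agent.Helper76_LQY.TMA
import Pool.Agent.Helper81_LQY.TEV
import Pool.Agent.Helper60_LQY.SMZ
import Pool.Agent.Helper60_LQY.MAZ
import Pool.Agent.Helper47_LQY.LOC
import Pool.Agent.Helper16_LQY.TMZ
import Pool.Agent.Helper69_LQY.LDS
import Pool.Agent.Helper51_LQY.EIZ

/-!
# Quantum diffusion and the extended eigenfunctions: assembly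
-/

set_option autoImplicit false

open MeasureTheory ProbabilityTheory

noncomputable section

namespace Pool.Agent.LE.QY.H54

open Pool.Agent.LE.QY

theorem torT : TorStmt := QZ.H54.tofT

theorem lttT : LttStmt := H85.ltt H10.bal

theorem tsmT : TsmStmt := H47.tsm torT

theorem tmaT : TmaStmt := H76.tma torT

theorem tevT : TevStmt := H81.tev torT

theorem smzT : SmzStmt := H60.smz tsmT lttT H10.bal

theorem mazT : MazStmt := H60.maz tmaT lttT

theorem locT : LocStmt := H47.loc torT lttT

theorem tmzT : TmzStmt := H16.tmz locT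

theorem ldsT : LdsStmt := H69.lds locT H64.har

theorem eizT : EizStmt := H51.eiz torT QX.H54.egbT

end Pool.Agent.LE.QY.H54
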